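import Mathlib
import Pool.Agent.V11326.OrdUpper
import Pool.Agent.V11326.OrdLower

/-!
# Largest cliques over pairwise non-harmonious patterns have size of order `n^{1/r}`

For every `r ≥ 1` and every finite set `Ps` of pairwise non-harmonious `r`-patterns, at least one of
them collectable, the largest `Ps`-clique in a uniformly random ordered `r`-matching of size `n` has
asymptotically almost surely between `c n^{1/r}` and `C n^{1/r}` edges.

Vertices are natural numbers, an edge is a finite set of vertices, an ordered `r`-matching of size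
`n` on `{0, …, rn-1}` is a family of `n` pairwise disjoint `r`-subsets of it, and a pattern is given
by the set of positions (counted from `0`) of its letters `A`; see `Pool.Agent.V11326.OrdPat` for
`pos`, `IsPattern`, `Forms`, `IsMatching`, `IsClique`, `Collectable`, `SplitsAt`, `Harmonious` and
`Pool.Agent.V11326.OrdUpper` for `matchings` and `zmax`.
-/

set_option autoImplicit false

namespace Pool.Agent.Results.MP_d24be6_pr.NonHarmoniousTheta

open Finset Pool.Agent.V11326.OrdPat Pool.Agent.V11326.OrdUpper Pool.Agent.V11326.OrdLower Filter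
open scoped Topology

theorem matchings_eq (r n : ℕ) : matchings r n = PM r (fun _ => True) (range (r * n)) n := by
  classical
  ext M
  unfold matchings
  rw [mem_PM, mem_filter, mem_powerset]
  constructor
  · rintro ⟨h1, h2, h3⟩
    exact ⟨fun E hE => (mem_powersetCard.mp (h1 hE)).1, h2, h3, fun _ _ => trivial⟩
  · rintro ⟨h1, h2, h3, _⟩
    exact ⟨fun E hE => mem_powersetCard.mpr ⟨h1 E hE, h2.1 E hE⟩, h2, h3⟩

open Classical in
theorem lower_count {r : ℕ} (hr : 1 ≤ r) {Ps : Finset (Finset ℕ)} {P : Finset ℕ} (hP : P ∈ Ps)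
    (hcol : Collectable r P) {n m : ℕ} (hm : 1 ≤ m) (hmn : (256 * r ^ 2 * m) ^ r ≤ n) :
    (((matchings r n).filter (fun M => 4 * zmax Ps M < m)).card : ℝ) ≤
      (2 * Real.exp (-1)) ^ m * ((matchings r n).card : ℝ) := by
  obtain ⟨S, hS, hSm, hSP⟩ := hcol m
  have hr2 : 1 ≤ r ^ 2 := Nat.one_le_pow _ _ hr
  have hn0 : 256 * r ^ 2 * m ≤ n := le_trans (Nat.le_self_pow (by omega) _) hmn
  have hn1 : 4 * m ≤ n := by nlinarith
  have hn2 : 32 * r ≤ n := by nlinarith
  set h := n / (2 * m) with hh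
  have h2m : 0 < 2 * m := by omega
  have hh1 : 2 * m * h ≤ n := Nat.mul_div_le n (2 * m)
  have hh2 : n < 2 * m * (h + 1) := Nat.lt_mul_div_succ n h2m
  have hh3 : n < 4 * m * h := by nlinarith
  have hhpos : 1 ≤ h := by
    rcases Nat.eq_zero_or_pos h with h0 | h0
    · rw [h0] at hh3
      omega
    · exact h0
  set a := m * h / (4 * r) with ha
  have h4r : 0 < 4 * r := by omega
  have ha1 : 4 * r * a ≤ m * h := Nat.mul_div_le (m * h) (4 * r)
  have ha2 : m * h < 4 * r * (a + 1) := Nat.lt_mul_div_succ (m * h) h4r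
  have ha3 : n ≤ 32 * r * a := by nlinarith
  -- the vertex set of the clique
  set U : Finset ℕ := S.biUnion id with hU
  have hUe : ∀ e ∈ S, e ⊆ U := fun e he => subset_biUnion_of_mem id he
  have hUc : U.card = r * S.card := by
    have h1 : ∀ e ∈ S, ∀ e' ∈ S, e ≠ e' → Disjoint (id e) (id e') := hS.2
    rw [hU, card_biUnion h1]
    have h2 : ∀ e ∈ S, (id e : Finset ℕ).card = r := hS.1
    rw [sum_congr rfl h2, sum_const, smul_eq_mul, mul_comm]
  have hfew := few_hits (n := n) (a := a) hr hS hhpos hUe hUc (by omega)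
    (by rw [hSm]; calc 2 * h * m = 2 * m * h := by ring
          _ ≤ n := hh1) (by rw [hSm]; calc 4 * (r * a) = 4 * r * a := by ring
                              _ ≤ _ := ha1)
  have hG : (GG r n : ℝ) = ((matchings r n).card : ℝ) := by
    rw [matchings_eq]; rfl
  have hsub : (matchings r n).filter (fun M => 4 * zmax Ps M < m) ⊆
      (PM r (fun _ => True) (range (r * n)) n).filter
        (fun M => 4 * (S.filter (fun e => ∃ E ∈ M, Ty U h e E)).card < S.card) := by
    intro M hM
    rw [mem_filter] at hM ⊢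
    refine ⟨by rw [← matchings_eq]; exact hM.1, ?_⟩
    obtain ⟨K, hKM, hKc, hKcard⟩ := clique_of_hits hS hSP hP hhpos (U := U) M
    have h1 : K.card ≤ zmax Ps M := by
      unfold zmax
      exact le_sup (f := card) (mem_filter.mpr ⟨mem_powerset.mpr hKM, hKc⟩)
    rw [← hKcard, hSm]
    omega
  refine le_trans (by exact_mod_cast card_le_card hsub) (hfew.trans ?_)
  rw [hG, mul_pow, mul_assoc, hSm]
  have hm0 : (0 : ℝ) < m := by exact_mod_cast hm
  have hn3 : (0 : ℝ) < n := by
    have : 0 < n := by omega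
    exact_mod_cast this
  have hr0 : (0 : ℝ) < r := by exact_mod_cast hr
  have hcast : ((r * n : ℕ) : ℝ) = (r : ℝ) * n := by push_cast; ring
  rw [hcast]
  set x : ℝ := ((m : ℝ) / 2 * h ^ r) / ((r : ℝ) * n) ^ r with hx
  have hden : (0 : ℝ) < ((r : ℝ) * n) ^ r := by positivity
  have hx1 : x ≤ 1 := by
    rw [hx, div_le_one hden]
    have h1 : m * h ^ r ≤ n ^ r := by
      obtain ⟨r', rfl⟩ : ∃ r', r = r' + 1 := ⟨r - 1, by omega⟩
      rw [pow_succ, pow_succ]
      have h2 : m * h ≤ n := by nlinarith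
      have h3 : h ≤ n := by nlinarith
      calc m * (h ^ r' * h) = h ^ r' * (m * h) := by ring
        _ ≤ n ^ r' * n := Nat.mul_le_mul (Nat.pow_le_pow_left h3 r') h2
    have h4 : (m : ℝ) * (h : ℝ) ^ r ≤ (n : ℝ) ^ r := by exact_mod_cast h1
    have h5 : (n : ℝ) ^ r ≤ ((r : ℝ) * n) ^ r := by
      apply pow_le_pow_left₀ hn3.le
      have : (1 : ℝ) ≤ r := by exact_mod_cast hr
      nlinarith
    have h6 : (0 : ℝ) ≤ (m : ℝ) * (h : ℝ) ^ r := by positivity
    linarith
  have hax : (m : ℝ) ≤ a * x := by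
    -- `a h^r ≥ 2 (rn)^r`
    have h1 : 2 * (r * n) ^ r ≤ a * h ^ r := by
      have h2 : n * n ^ r ≤ (32 * r * a) * (4 * m * h) ^ r :=
        Nat.mul_le_mul ha3 (Nat.pow_le_pow_left hh3.le r)
      have h3 : 64 * r * (4 * r * m) ^ r ≤ n := by
        calc 64 * r * (4 * r * m) ^ r ≤ (64 * r) ^ r * (4 * r * m) ^ r :=
              Nat.mul_le_mul_right _ (Nat.le_self_pow (by omega) _)
          _ = (256 * r ^ 2 * m) ^ r := by rw [← mul_pow]; congr 1; ring
          _ ≤ n := hmn
      have h4 : 64 * r * (4 * r * m) ^ r * n ^ r ≤ (32 * r * a) * (4 * m * h) ^ r :=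
        (Nat.mul_le_mul_right _ h3).trans h2
      have h5 : (32 * r * (4 * m) ^ r) * (2 * (r * n) ^ r) ≤
          (32 * r * (4 * m) ^ r) * (a * h ^ r) := by
        calc (32 * r * (4 * m) ^ r) * (2 * (r * n) ^ r) =
              64 * r * (4 * r * m) ^ r * n ^ r := by
                rw [mul_pow (4 * r) m, mul_pow 4 r, mul_pow 4 m, mul_pow r n]; ring
          _ ≤ _ := h4
          _ = _ := by rw [mul_pow (4 * m) h]; ring
      exact Nat.le_of_mul_le_mul_left h5 (by positivity)
    have h6 : 2 * ((r : ℝ) * n) ^ r ≤ (a : ℝ) * (h : ℝ) ^ r := by exact_mod_cast h1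
    rw [hx, mul_div_assoc', le_div_iff₀ hden]
    nlinarith
  have hpow : (1 - x) ^ a ≤ Real.exp (-1) ^ m := by
    calc (1 - x) ^ a ≤ (Real.exp (-x)) ^ a :=
          pow_le_pow_left₀ (by linarith) (Real.one_sub_le_exp_neg x) a
      _ = Real.exp (-(a * x)) := by rw [← Real.exp_nat_mul]; congr 1; ring
      _ ≤ Real.exp (-m) := Real.exp_le_exp.mpr (by linarith)
      _ = Real.exp (-1) ^ m := by rw [← Real.exp_nat_mul]; congr 1; ring
  gcongr

open Classical in
/-- **Main theorem.** Let `r ≥ 1` and let `Ps` be any finite set of pairwise non-harmonious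
`r`-patterns, at least one of them collectable. There are constants `c, C > 0` such that the
probability that a uniformly random ordered `r`-matching `M` of size `n` satisfies
`c n^{1/r} ≤ zmax Ps M ≤ C n^{1/r}` tends to `1` as `n → ∞`. -/
theorem result (r : ℕ) (hr : 1 ≤ r) (Ps : Finset (Finset ℕ))
    (hpat : ∀ P ∈ Ps, IsPattern r P)
    (hnh : ∀ P ∈ Ps, ∀ Q ∈ Ps, P ≠ Q → ¬ Harmonious r P Q)
    (hcol : ∃ P ∈ Ps, Collectable r P) :
    ∃ c C : ℝ, 0 < c ∧ 0 < C ∧ Tendsto (fun n : ℕ =>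
      (((matchings r n).filter (fun M => c * (n : ℝ) ^ ((1 : ℝ) / r) ≤ (zmax Ps M : ℝ) ∧
          (zmax Ps M : ℝ) ≤ C * (n : ℝ) ^ ((1 : ℝ) / r))).card : ℝ)
        / ((matchings r n).card : ℝ)) atTop (𝓝 1) := by
  obtain ⟨P, hP, hPc⟩ := hcol
  obtain ⟨C, hC, hup⟩ := upper r hr Ps hpat hnh
  have hr0 : (0 : ℝ) < r := by exact_mod_cast hr
  set c0 : ℝ := 1 / (256 * (r : ℝ) ^ 2) with hc0
  have hc0pos : 0 < c0 := by positivity
  refine ⟨c0 / 8, C, by positivity, hC, ?_⟩
  let m : ℕ → ℕ := fun n => ⌊c0 * (n : ℝ) ^ ((1 : ℝ) / r)⌋₊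
  have hgrow : Tendsto (fun n : ℕ => c0 * (n : ℝ) ^ ((1 : ℝ) / r)) atTop atTop := by
    apply Tendsto.const_mul_atTop hc0pos
    exact (tendsto_rpow_atTop (by positivity)).comp tendsto_natCast_atTop_atTop
  have hmt : Tendsto m atTop atTop := tendsto_nat_floor_atTop.comp hgrow
  have hq : 2 * Real.exp (-1) < 1 := by
    rw [Real.exp_neg, ← div_eq_mul_inv, div_lt_one (Real.exp_pos 1)]
    have := Real.exp_one_gt_d9
    linarith
  have hlim : Tendsto (fun n : ℕ =>
      (((matchings r n).filter (fun M => (zmax Ps M : ℝ) ≤ C * (n : ℝ) ^ ((1 : ℝ) / r))).card : ℝ)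
        / ((matchings r n).card : ℝ) - (2 * Real.exp (-1)) ^ (m n)) atTop (𝓝 1) := by
    have h1 : Tendsto (fun n : ℕ => (2 * Real.exp (-1)) ^ (m n)) atTop (𝓝 0) :=
      (tendsto_pow_atTop_nhds_zero_of_lt_one (by positivity) hq).comp hmt
    have h2 := hup.sub h1
    simpa using h2
  refine tendsto_of_tendsto_of_tendsto_of_le_of_le' hlim tendsto_const_nhds ?_ ?_
  · filter_upwards [eventually_ge_atTop 1, hgrow.eventually_ge_atTop 2] with n hn hn2
    have hn0 : (0 : ℝ) < n := by exact_mod_cast hn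
    have hm : (0 : ℝ) < ((matchings r n).card : ℝ) := by
      obtain ⟨ω0⟩ : Nonempty (Om r n) := by
        refine ⟨Fintype.equivOfCardEq ?_⟩
        rw [Fintype.card_prod, Fintype.card_fin, Fintype.card_fin, Fintype.card_fin, mul_comm]
      exact_mod_cast card_pos.mpr ⟨_, MM_mem hr ω0⟩
    have hm1 : 1 ≤ m n := by
      apply Nat.le_floor
      push_cast
      linarith
    have hmle : (m n : ℝ) ≤ c0 * (n : ℝ) ^ ((1 : ℝ) / r) := Nat.floor_le (by positivity)
    have hmn : (256 * r ^ 2 * m n) ^ r ≤ n := by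
      have h1 : (256 * (r : ℝ) ^ 2 * (m n : ℝ)) ≤ (n : ℝ) ^ ((1 : ℝ) / r) := by
        calc (256 * (r : ℝ) ^ 2 * (m n : ℝ)) ≤
              256 * (r : ℝ) ^ 2 * (c0 * (n : ℝ) ^ ((1 : ℝ) / r)) := by gcongr
          _ = (n : ℝ) ^ ((1 : ℝ) / r) := by
              rw [hc0]; field_simp
      have h2 : (256 * (r : ℝ) ^ 2 * (m n : ℝ)) ^ r ≤ (n : ℝ) := by
        calc (256 * (r : ℝ) ^ 2 * (m n : ℝ)) ^ r ≤ ((n : ℝ) ^ ((1 : ℝ) / r)) ^ r :=
              pow_le_pow_left₀ (by positivity) h1 r
          _ = n := by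
              rw [← Real.rpow_natCast, ← Real.rpow_mul hn0.le, one_div,
                inv_mul_cancel₀ hr0.ne', Real.rpow_one]
      exact_mod_cast h2
    have hlow := lower_count hr hP hPc hm1 hmn
    -- the good event contains the upper event minus the lower bad event
    have hsub : (matchings r n).filter (fun M => (zmax Ps M : ℝ) ≤ C * (n : ℝ) ^ ((1 : ℝ) / r)) ⊆
        (matchings r n).filter (fun M => c0 / 8 * (n : ℝ) ^ ((1 : ℝ) / r) ≤ (zmax Ps M : ℝ) ∧
          (zmax Ps M : ℝ) ≤ C * (n : ℝ) ^ ((1 : ℝ) / r)) ∪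
        (matchings r n).filter (fun M => 4 * zmax Ps M < m n) := by
      intro M hM
      rw [mem_filter] at hM
      rw [mem_union, mem_filter, mem_filter]
      by_cases hb : 4 * zmax Ps M < m n
      · right; exact ⟨hM.1, hb⟩
      · left
        refine ⟨hM.1, ?_, hM.2⟩
        have h1 : (m n : ℝ) ≤ 4 * (zmax Ps M : ℝ) := by exact_mod_cast not_lt.mp hb
        have h2 : c0 * (n : ℝ) ^ ((1 : ℝ) / r) < (m n : ℝ) + 1 := Nat.lt_floor_add_one _
        linarith
    have hcard : (((matchings r n).filter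
        (fun M => (zmax Ps M : ℝ) ≤ C * (n : ℝ) ^ ((1 : ℝ) / r))).card : ℝ) ≤
        (((matchings r n).filter (fun M => c0 / 8 * (n : ℝ) ^ ((1 : ℝ) / r) ≤ (zmax Ps M : ℝ) ∧
          (zmax Ps M : ℝ) ≤ C * (n : ℝ) ^ ((1 : ℝ) / r))).card : ℝ) +
        (((matchings r n).filter (fun M => 4 * zmax Ps M < m n)).card : ℝ) := by
      exact_mod_cast (card_le_card hsub).trans (card_union_le _ _)
    rw [sub_le_iff_le_add, ← sub_le_iff_le_add', ← sub_div]
    rw [div_le_iff₀ hm]
    linarith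
  · refine Eventually.of_forall (fun n => ?_)
    apply div_le_one_of_le₀
    · exact_mod_cast card_filter_le _ _
    · positivity

end Pool.Agent.Results.MP_d24be6_pr.NonHarmoniousTheta
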